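import Pool.Agent.TH285.MG.Fam2

/-!
# Descent of integral matrices to subfields of bounded index
-/

set_option autoImplicit false
set_option linter.unusedSectionVars false

namespace Pool.Agent.Q132.MG

open NumberField Module Filter Topology Polynomial
open Pool.Agent.H225R3.Marg (emb nilp_of_roots)
open Pool.Agent.TH285.MG

/-- companion matrices -/
theorem exists_companion {R : Type*} [CommRing R] [IsDomain R] (g : R[X]) (hg : g.Monic) {N : ℕ}
    (hN : g.natDegree = N) : ∃ C : Matrix (Fin N) (Fin N) R, C.charpoly = g := by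
  classical
  let pb := AdjoinRoot.powerBasis' hg
  have hdim : pb.dim = N := by
    rw [AdjoinRoot.powerBasis'_dim, hN]
  let M := Algebra.leftMulMatrix pb.basis (AdjoinRoot.root g)
  have h1 : aeval (AdjoinRoot.root g) M.charpoly = 0 := by
    apply Algebra.leftMulMatrix_injective pb.basis
    rw [← Polynomial.aeval_algHom_apply, map_zero]
    exact Matrix.aeval_self_charpoly M
  rw [AdjoinRoot.aeval_eq, AdjoinRoot.mk_eq_zero] at h1
  have h2 : M.charpoly = g := by
    refine Polynomial.eq_of_monic_of_dvd_of_natDegree_le hg M.charpoly_monic h1 ?_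
    rw [Matrix.charpoly_natDegree_eq_dim, Fintype.card_fin, hdim, hN]
  refine ⟨Matrix.reindex (finCongr hdim) (finCongr hdim) M, ?_⟩
  rw [Matrix.charpoly_reindex, h2]

/-- extension of an embedding with prescribed value at an element -/
theorem exists_emb {k₁ E : Type} [Field k₁] [Field E] [Algebra k₁ E] [Algebra.IsAlgebraic k₁ E]
    (x : E) (σ₁ : k₁ →+* ℂ) (y : ℂ) (hy : eval₂ σ₁ y (minpoly k₁ x) = 0) :
    ∃ φ : E →+* ℂ, φ.comp (algebraMap k₁ E) = σ₁ ∧ φ x = y := by
  let _ : Algebra k₁ ℂ := σ₁.toAlgebra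
  obtain ⟨φ, hφ⟩ := IntermediateField.exists_algHom_of_splits_of_aeval (F := k₁) (E := E) (K := ℂ)
    (fun s => ⟨(Algebra.IsAlgebraic.isAlgebraic (R := k₁) s).isIntegral, IsAlgClosed.splits _⟩)
    (x := x) (y := y) (by rw [aeval_def]; exact hy)
  refine ⟨φ.toRingHom, ?_, hφ⟩
  exact φ.comp_algebraMap

section

variable {k₁ k : Type} [Field k₁] [NumberField k₁] [Field k] [NumberField k] [Algebra k₁ k]

/-- an eigenvalue which is not a root of unity -/
theorem exists_eig {n : ℕ} (A : Matrix (Fin n) (Fin n) (𝓞 k))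
    (hN : ∀ N : ℕ, 0 < N → ¬ IsNilpotent (A ^ N - 1)) :
    ∃ x : AlgebraicClosure k, aeval x A.charpoly = 0 ∧ ∀ N : ℕ, 0 < N → x ^ N ≠ 1 := by
  by_contra hcon
  push Not at hcon
  have hinj : Function.Injective (algebraMap (𝓞 k) (AlgebraicClosure k)) := by
    rw [IsScalarTower.algebraMap_eq (𝓞 k) k (AlgebraicClosure k)]
    exact (algebraMap k (AlgebraicClosure k)).injective.comp
      (FaithfulSMul.algebraMap_injective (𝓞 k) k)
  obtain ⟨N, hN0, h⟩ := nilp_of_roots (algebraMap (𝓞 k) (AlgebraicClosure k)) hinj A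
    (fun l hl => by
      rw [IsRoot.def, eval_map_algebraMap] at hl
      exact hcon l hl)
  exact hN N hN0 h

/-- the degree over a subfield -/
theorem natDegree_le {n D : ℕ} (hD : finrank k₁ k ≤ D) (A : Matrix (Fin n) (Fin n) (𝓞 k))
    (x : AlgebraicClosure k) (hx : aeval x A.charpoly = 0) :
    (minpoly k₁ x).natDegree ≤ n * D := by
  have hk : Module.Finite k₁ k := Module.Finite.of_restrictScalars_finite ℚ k₁ k
  have hxk : aeval x (A.charpoly.map (algebraMap (𝓞 k) k)) = 0 := by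
    rw [aeval_map_algebraMap]; exact hx
  have hne : A.charpoly.map (algebraMap (𝓞 k) k) ≠ 0 := (A.charpoly_monic.map _).ne_zero
  have hint : IsIntegral k x := ⟨_, A.charpoly_monic.map (algebraMap (𝓞 k) k), hxk⟩
  have h1 : (minpoly k x).natDegree ≤ n := by
    refine (Polynomial.natDegree_le_of_dvd (minpoly.dvd k x hxk) hne).trans ?_
    rw [A.charpoly_monic.natDegree_map, Matrix.charpoly_natDegree_eq_dim, Fintype.card_fin]
  have hE : finrank k (IntermediateField.adjoin k {x}) = (minpoly k x).natDegree :=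
    IntermediateField.adjoin.finrank hint
  have hfin : FiniteDimensional k (IntermediateField.adjoin k {x}) :=
    IntermediateField.adjoin.finiteDimensional hint
  have hfin1 : FiniteDimensional k₁ (IntermediateField.adjoin k {x}) :=
    FiniteDimensional.trans k₁ k _
  have h2 : minpoly k₁ (IntermediateField.AdjoinSimple.gen k x) = minpoly k₁ x := by
    have htow : IsScalarTower k₁ (IntermediateField.adjoin k {x}) (AlgebraicClosure k) :=
      IsScalarTower.of_algebraMap_eq (fun r => by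
        rw [IsScalarTower.algebraMap_apply k₁ k (AlgebraicClosure k)]
        rfl)
    rw [← minpoly.algebraMap_eq (A := k₁) (B := IntermediateField.adjoin k {x})
      (B' := AlgebraicClosure k) (algebraMap (IntermediateField.adjoin k {x})
        (AlgebraicClosure k)).injective, IntermediateField.AdjoinSimple.algebraMap_gen]
  rw [← h2]
  refine (minpoly.natDegree_le _).trans ?_
  rw [← finrank_mul_finrank k₁ k, hE, mul_comm]
  exact Nat.mul_le_mul h1 hD

/-- the polynomial over the subfield -/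
theorem exists_poly {n D : ℕ} (hD : finrank k₁ k ≤ D) (A : Matrix (Fin n) (Fin n) (𝓞 k))
    (hA : IsUnit A) (hN : ∀ N : ℕ, 0 < N → ¬ IsNilpotent (A ^ N - 1)) :
    ∃ g : (𝓞 k₁)[X], g.Monic ∧ g.natDegree = n * D ∧ IsUnit (g.coeff 0) ∧
      (∀ (σ₁ : k₁ →+* ℂ) (y : ℂ), (g.map (emb σ₁)).IsRoot y → y = 1 ∨ ∃ σ : k →+* ℂ,
        σ.comp (algebraMap k₁ k) = σ₁ ∧ (A.charpoly.map (emb σ)).IsRoot y) ∧
      ∃ (σ₁ : k₁ →+* ℂ) (y : ℂ), (g.map (emb σ₁)).IsRoot y ∧ ∀ N : ℕ, 0 < N → y ^ N ≠ 1 := by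
  obtain ⟨x, hx, hroot⟩ := exists_eig A hN
  have hk : Module.Finite k₁ k := Module.Finite.of_restrictScalars_finite ℚ k₁ k
  have halg : Algebra.IsAlgebraic k₁ (AlgebraicClosure k) := Algebra.IsAlgebraic.trans k₁ k _
  -- integrality
  have hxZ : IsIntegral ℤ x := by
    have h1 : IsIntegral (𝓞 k) x := ⟨A.charpoly, A.charpoly_monic, hx⟩
    exact isIntegral_trans x h1
  have hxR : IsIntegral (𝓞 k₁) x := hxZ.tower_top
  set f := minpoly (𝓞 k₁) x with hf
  have hfm : f.Monic := minpoly.monic hxR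
  have hfk : minpoly k₁ x = f.map (algebraMap (𝓞 k₁) k₁) :=
    minpoly.isIntegrallyClosed_eq_field_fractions' k₁ hxR
  have hdeg : f.natDegree ≤ n * D := by
    have := natDegree_le (k₁ := k₁) hD A x hx
    rwa [hfk, hfm.natDegree_map] at this
  -- the constant coefficient is a unit
  obtain ⟨z, hz, hxz⟩ : ∃ z : AlgebraicClosure k, IsIntegral ℤ z ∧ x * z = 1 := by
    have hdet : IsUnit (A.charpoly.coeff 0) := by
      have h1 : IsUnit A.det := (Matrix.isUnit_iff_isUnit_det _).1 hA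
      rw [Matrix.det_eq_sign_charpoly_coeff] at h1
      exact isUnit_of_mul_isUnit_right h1
    obtain ⟨c, hc⟩ := hdet
    refine ⟨-(algebraMap (𝓞 k) (AlgebraicClosure k) ((c⁻¹ : (𝓞 k)ˣ) : 𝓞 k)) *
      aeval x A.charpoly.divX, ?_, ?_⟩
    · have h1 : ∀ a : 𝓞 k, IsIntegral ℤ (algebraMap (𝓞 k) (AlgebraicClosure k) a) :=
        fun a => (Algebra.IsIntegral.isIntegral (R := ℤ) a).algebraMap
      refine (h1 _).neg.mul ?_
      rw [aeval_eq_sum_range]
      refine IsIntegral.sum _ fun i _ => ?_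
      rw [Algebra.smul_def]
      exact (h1 _).mul (hxZ.pow i)
    · have h1 := congrArg (aeval x) (divX_mul_X_add A.charpoly)
      rw [hx, map_add, map_mul, aeval_X, aeval_C, ← hc] at h1
      have h2 : algebraMap (𝓞 k) (AlgebraicClosure k) ((c⁻¹ : (𝓞 k)ˣ) : 𝓞 k) *
          algebraMap (𝓞 k) (AlgebraicClosure k) (c : 𝓞 k) = 1 := by
        rw [← map_mul, Units.inv_mul, map_one]
      linear_combination (-algebraMap (𝓞 k) (AlgebraicClosure k) ((c⁻¹ : (𝓞 k)ˣ) : 𝓞 k)) * h1 + h2
  have hunit : IsUnit (f.coeff 0) := by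
    have hz0 : z ≠ 0 := by
      rintro rfl
      rw [mul_zero] at hxz
      exact zero_ne_one hxz
    obtain ⟨u, hu⟩ : ∃ u : (𝓞 k₁)[X], x * aeval x u = 1 := by
      obtain ⟨h, hm, hz1⟩ : IsIntegral (𝓞 k₁) z := hz.tower_top
      let _ : Invertible z := invertibleOfNonzero hz0
      have h1 : eval₂ (algebraMap (𝓞 k₁) (AlgebraicClosure k)) (⅟z) h.reverse = 0 :=
        (eval₂_reverse_eq_zero_iff _ _ _).2 hz1
      have h2 : ⅟z = x := by
        rw [invOf_eq_inv]
        exact inv_eq_of_mul_eq_one_left hxz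
      rw [h2, ← aeval_def] at h1
      refine ⟨-h.reverse.divX, ?_⟩
      have h3 := congrArg (aeval x) (divX_mul_X_add h.reverse)
      rw [h1, map_add, map_mul, aeval_X, aeval_C, coeff_zero_reverse, hm.leadingCoeff, map_one] at h3
      rw [map_neg]
      linear_combination -h3
    have h1 : f ∣ X * u - 1 := by
      apply minpoly.isIntegrallyClosed_dvd hxR
      rw [map_sub, map_mul, aeval_X, map_one, hu, sub_self]
    obtain ⟨w, hw⟩ := h1
    have h2 := congrArg (fun q => q.coeff 0) hw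
    simp only [coeff_sub, mul_coeff_zero, coeff_X_zero, zero_mul, coeff_one_zero, zero_sub] at h2
    exact IsUnit.of_mul_eq_one (-(w.coeff 0)) (by linear_combination h2)
  refine ⟨f * (X - 1) ^ (n * D - f.natDegree), ?_, ?_, ?_, ?_, ?_⟩
  · exact hfm.mul ((monic_X_sub_C (1 : 𝓞 k₁)).pow _)
  · rw [show (X - 1 : (𝓞 k₁)[X]) = X - C 1 by rw [C_1],
      hfm.natDegree_mul ((monic_X_sub_C (1 : 𝓞 k₁)).pow _),
      (monic_X_sub_C (1 : 𝓞 k₁)).natDegree_pow, natDegree_X_sub_C, mul_one]
    omega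
  · rw [mul_coeff_zero]
    refine hunit.mul ?_
    rw [coeff_zero_eq_eval_zero, eval_pow, eval_sub, eval_X, eval_one, zero_sub]
    exact (isUnit_one.neg).pow _
  · intro σ₁ y hy
    rw [Polynomial.map_mul, Polynomial.map_pow, IsRoot.def, eval_mul, mul_eq_zero] at hy
    rcases hy with hy | hy
    · right
      obtain ⟨φ, hφ, hφx⟩ := exists_emb x σ₁ y (by
        rw [hfk, eval₂_map]
        rw [eval_map] at hy
        exact hy)
      refine ⟨φ.comp (algebraMap k (AlgebraicClosure k)), ?_, ?_⟩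
      · rw [← hφ, RingHom.comp_assoc, ← IsScalarTower.algebraMap_eq]
      · rw [IsRoot.def, eval_map, ← hφx]
        have h3 : emb (φ.comp (algebraMap k (AlgebraicClosure k))) =
            φ.comp (algebraMap (𝓞 k) (AlgebraicClosure k)) := rfl
        rw [h3, ← Polynomial.hom_eval₂, ← aeval_def, hx, map_zero]
    · left
      simp only [Polynomial.map_sub, Polynomial.map_X, Polynomial.map_one, eval_pow, eval_sub,
        eval_X, eval_one] at hy
      have h4 := pow_eq_zero_iff (M₀ := ℂ) (a := y - 1) (n := n * D - f.natDegree)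
      by_cases h0 : n * D - f.natDegree = 0
      · rw [h0, pow_zero] at hy
        exact absurd hy one_ne_zero
      · exact sub_eq_zero.1 ((h4 h0).1 hy)
  · have hfield : Nonempty (AlgebraicClosure k →+* ℂ) := by
      obtain ⟨σ⟩ : Nonempty (k →+* ℂ) := inferInstance
      let _ : Algebra k ℂ := σ.toAlgebra
      exact ⟨(IsAlgClosed.lift : AlgebraicClosure k →ₐ[k] ℂ).toRingHom⟩
    obtain ⟨φ⟩ := hfield
    refine ⟨φ.comp (algebraMap k₁ (AlgebraicClosure k)), φ x, ?_, ?_⟩
    · rw [Polynomial.map_mul, IsRoot.def, eval_mul, eval_map]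
      have h3 : emb (φ.comp (algebraMap k₁ (AlgebraicClosure k))) =
          φ.comp (algebraMap (𝓞 k₁) (AlgebraicClosure k)) := rfl
      rw [h3, ← Polynomial.hom_eval₂, ← aeval_def, hf, minpoly.aeval, map_zero, zero_mul]
    · intro N hN0 hcon
      apply hroot N hN0
      apply φ.injective
      rw [map_pow, hcon, map_one]

/-- the matrix over the subfield -/
theorem exists_matrix {n D : ℕ} (hD : finrank k₁ k ≤ D) (A : Matrix (Fin n) (Fin n) (𝓞 k))
    (hA : IsUnit A) (hN : ∀ N : ℕ, 0 < N → ¬ IsNilpotent (A ^ N - 1)) :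
    ∃ C : Matrix (Fin (n * D)) (Fin (n * D)) (𝓞 k₁), IsUnit C ∧
      (∀ (σ₁ : k₁ →+* ℂ) (y : ℂ), ((emb σ₁).mapMatrix C).charpoly.IsRoot y → y = 1 ∨
        ∃ σ : k →+* ℂ, σ.comp (algebraMap k₁ k) = σ₁ ∧
          ((emb σ).mapMatrix A).charpoly.IsRoot y) ∧
      ∀ N : ℕ, 0 < N → ¬ IsNilpotent (C ^ N - 1) := by
  obtain ⟨g, hg, hgN, hg0, hroots, σ₁, y, hy, hyN⟩ := exists_poly hD A hA hN
  obtain ⟨C, hC⟩ := exists_companion g hg hgN
  refine ⟨C, ?_, ?_, ?_⟩
  · rw [Matrix.isUnit_iff_isUnit_det, Matrix.det_eq_sign_charpoly_coeff, hC]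
    exact ((isUnit_one.neg).pow _).mul hg0
  · intro σ₂ z hz
    rw [charpoly_emb, hC] at hz
    rcases hroots σ₂ z hz with h | ⟨σ, h1, h2⟩
    · exact Or.inl h
    · refine Or.inr ⟨σ, h1, ?_⟩
      rw [charpoly_emb]
      exact h2
  · intro N hN0 hnil
    apply hyN N hN0
    have h1 : ((emb σ₁).mapMatrix C).charpoly.IsRoot y := by
      rw [charpoly_emb, hC]; exact hy
    have h2 := root_pow _ N y h1
    have h3 : IsNilpotent (((emb σ₁).mapMatrix C) ^ N - 1) := by
      have := hnil.map (emb σ₁).mapMatrix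
      rwa [map_sub, map_pow, map_one] at this
    rw [← Matrix.mem_spectrum_iff_isRoot_charpoly] at h2
    have h4 : y ^ N - 1 ∈ spectrum ℂ (((emb σ₁).mapMatrix C) ^ N - 1) := by
      have h5 := spectrum.sub_singleton_eq (((emb σ₁).mapMatrix C) ^ N) (1 : ℂ)
      rw [map_one] at h5
      rw [← h5]
      exact Set.sub_mem_sub h2 rfl
    obtain ⟨e, he⟩ := h3
    have h6 := spectrum.pow_mem_pow _ e h4
    rw [he] at h6
    by_cases hn : n * D = 0
    · have : IsEmpty (Fin (n * D)) := by rw [hn]; infer_instance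
      have h7 : Subsingleton (Matrix (Fin (n * D)) (Fin (n * D)) ℂ) := inferInstance
      rw [spectrum.of_subsingleton] at h6
      exact absurd h6 (Set.notMem_empty _)
    · have : Nonempty (Fin (n * D)) := ⟨⟨0, Nat.pos_of_ne_zero hn⟩⟩
      rw [spectrum.zero_eq, Set.mem_singleton_iff] at h6
      by_contra h7
      exact pow_ne_zero e (sub_ne_zero.2 h7) h6

end

end Pool.Agent.Q132.MG
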