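import Pool.Agent.Q132.MG.Gap
import Pool.Agent.W238.Leh.General

/-!
# The number of characteristic polynomials of short elements
-/

set_option autoImplicit false
set_option linter.unusedSectionVars false

namespace Pool.Agent.Q132.MG

open NumberField Module Filter Topology MvPolynomial
open Pool.Agent.W238.Leh
open Pool.Agent.H225R3.Marg
open Pool.Agent.H627.LP
open Pool.Agent.H420R3 (mi)
open Pool.Agent.TH285.MG

/-- the power map on characteristic polynomials is a morphism -/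
theorem frK_mor (K : Type) [Field K] [NumberField K] (p : ℕ) (hp : p.Prime) (N : ℕ)
    (z : Fin (N + 1) → AlgebraicClosure K) (hz : ∀ i, aeval z (frK K p N i) = 0) : z = 0 := by
  obtain ⟨v, hv⟩ := Pool.Agent.TH285.MG.exists_place K p hp
  have hG : ∀ i, (frK K p N i).IsHomogeneous (p ^ 1) := fun i => by
    rw [pow_one]; exact frK_hom p N i
  obtain ⟨b, s, hb, hs, hint, hgood⟩ := (frK_insep v p hp hv N).exists_model hp le_rfl hv hG
  have hP0 := H420R3.mi_ne_bot v
  set Gb : Fin (N + 1) → MvPolynomial (Fin (N + 1)) K := fun i => C (b : K) * frK K p N i with hGb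
  have hGbhom : ∀ i, (Gb i).IsHomogeneous (p ^ 1) := by
    intro i
    have h7 := (isHomogeneous_C (Fin (N + 1)) (b : K)).mul (hG i)
    rwa [zero_add] at h7
  apply hgood.mor hP0 z
  intro i
  have h1 : act (Fit Gb s) z = 0 := by
    rw [act_Fit]
    obtain ⟨s', rfl⟩ : ∃ s', s = s' + 1 := ⟨s - 1, by omega⟩
    have h0 : act Gb z = 0 := by
      funext j
      change aeval z (C (b : K) * frK K p N j) = 0
      rw [map_mul, hz j, mul_zero]
    rw [Function.iterate_succ_apply, h0]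
    have hp1 : p ^ 1 ≠ 0 := by
      rw [pow_one]; exact hp.ne_zero
    have h2 : act Gb (0 : Fin (N + 1) → AlgebraicClosure K) = 0 := by
      have := act_smul hGbhom (0 : AlgebraicClosure K) (0 : Fin (N + 1) → AlgebraicClosure K)
      rwa [zero_smul, zero_pow hp1, zero_smul] at this
    clear hs hgood
    induction s' with
    | zero => rfl
    | succ s' ih => rw [Function.iterate_succ_apply', ih, h2]
  exact congrFun h1 i

variable {L : Type} [Field L] [NumberField L]

/-- upper bound for the canonical height of a characteristic polynomial -/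
theorem canH_le (K : Type) [Field K] [NumberField K] [Algebra K L] (p n : ℕ) (hp : p.Prime)
    (A : Matrix (Fin n) (Fin n) (𝓞 L)) (S : Finset (L →+* ℂ)) (ε : ℝ) (hε : 0 ≤ ε)
    (hlim : Tendsto (fun j : ℕ => Height.logHeight ((act (frK K p n))^[j] (xv A)) /
          ((finrank ℚ L : ℝ) * (p : ℝ) ^ j)) atTop (𝓝 (canH (frK K p n) p (xv A))))
    (hout : ∀ σ : L →+* ℂ, σ ∉ S → ∀ l : ℂ, ((emb σ).mapMatrix A).charpoly.IsRoot l → ‖l‖ ≤ 1)
    (hin : ∀ σ ∈ S, ∀ l : ℂ, ((emb σ).mapMatrix A).charpoly.IsRoot l → ‖l‖ ≤ 1 + ε) :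
    canH (frK K p n) p (xv A) ≤ 2 * S.card * n * ε / finrank ℚ L := by
  have hR : (1 : ℝ) ≤ 1 + ε := by linarith
  set d : ℕ := finrank ℚ L with hd
  have hd0 : (0 : ℝ) < d := by
    have : 0 < finrank ℚ L := finrank_pos
    exact_mod_cast this
  have hp1 : (1 : ℝ) < p := by exact_mod_cast hp.one_lt
  have hlogR : Real.log (1 + ε) ≤ ε := by
    have := Real.log_le_sub_one_of_pos (show 0 < 1 + ε by linarith)
    linarith
  have hub : ∀ j : ℕ, Height.logHeight ((act (frK K p n))^[j] (xv A)) /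
      ((d : ℝ) * (p : ℝ) ^ j) ≤
      n * Real.log 2 * ((p : ℝ)⁻¹) ^ j + 2 * S.card * n * ε / d := by
    intro j
    obtain ⟨u, hu, h1⟩ := act_iter_xv (K := K) p hp.pos A j
    rw [h1, Height.logHeight_smul_eq_logHeight _ hu]
    have hpj : 0 < p ^ j := Nat.pow_pos hp.pos
    have h2 := mulHeight_xv_le A S (1 + ε) hR hout hin (p ^ j) hpj
    have hmh : 0 < Height.mulHeight (xv (A ^ p ^ j)) := Height.mulHeight_pos _
    have h3 : Height.logHeight (xv (A ^ p ^ j)) ≤
        d * (n * Real.log 2) + 2 * S.card * (n * p ^ j * Real.log (1 + ε)) := by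
      rw [Height.logHeight]
      refine (Real.log_le_log hmh h2).trans ?_
      rw [Real.log_mul (by positivity) (by positivity), Real.log_pow, Real.log_pow, Real.log_pow,
        Real.log_pow]
      push_cast
      rw [hd]
    have hpj' : (0 : ℝ) < (p : ℝ) ^ j := by positivity
    have h4 : (2 * S.card * (n * p ^ j * Real.log (1 + ε)) : ℝ) ≤
        2 * S.card * (n * p ^ j * ε) := by
      gcongr
    rw [div_le_iff₀ (by positivity)]
    have h5 : (n * Real.log 2 * ((p : ℝ)⁻¹) ^ j + 2 * S.card * n * ε / d) * (d * (p : ℝ) ^ j) =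
        d * (n * Real.log 2) + 2 * S.card * (n * p ^ j * ε) := by
      rw [inv_pow]
      field_simp
    rw [h5]
    linarith
  have hlim2 : Tendsto (fun j : ℕ => (n : ℝ) * Real.log 2 * ((p : ℝ)⁻¹) ^ j +
      2 * S.card * n * ε / d) atTop (𝓝 ((n : ℝ) * Real.log 2 * 0 + 2 * S.card * n * ε / d)) := by
    refine Tendsto.add_const _ (Tendsto.const_mul _ ?_)
    exact tendsto_pow_atTop_nhds_zero_of_lt_one (by positivity) (inv_lt_one_of_one_lt₀ hp1)
  have hle := le_of_tendsto_of_tendsto' hlim hlim2 hub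
  rwa [mul_zero, zero_add] at hle

open scoped LinearAlgebra.Projectivization in
/-- few characteristic polynomials with small eigenvalues -/
theorem few_charpoly (n s : ℕ) (η : ℝ) (hη : 0 < η) : ∃ C δ : ℝ, 0 < C ∧ 0 < δ ∧
    ∀ (L : Type) [Field L] [NumberField L] (S : Finset (L →+* ℂ)), S.card ≤ s →
      {f : Polynomial (𝓞 L) | ∃ A : Matrix (Fin n) (Fin n) (𝓞 L), f = A.charpoly ∧
        (∀ σ : L →+* ℂ, σ ∉ S → ∀ l : ℂ, ((emb σ).mapMatrix A).charpoly.IsRoot l → ‖l‖ ≤ 1) ∧
        (∀ σ ∈ S, ∀ l : ℂ, ((emb σ).mapMatrix A).charpoly.IsRoot l → ‖l‖ ≤ 1 + δ)}.Finite ∧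
      ({f : Polynomial (𝓞 L) | ∃ A : Matrix (Fin n) (Fin n) (𝓞 L), f = A.charpoly ∧
        (∀ σ : L →+* ℂ, σ ∉ S → ∀ l : ℂ, ((emb σ).mapMatrix A).charpoly.IsRoot l → ‖l‖ ≤ 1) ∧
        (∀ σ ∈ S, ∀ l : ℂ, ((emb σ).mapMatrix A).charpoly.IsRoot l → ‖l‖ ≤ 1 + δ)}.ncard : ℝ) ≤
      C * (finrank ℚ L : ℝ) ^ ((n : ℝ) + η) := by
  classical
  obtain ⟨C, hC, hmain⟩ := Pool.Agent.W238.Leh.general ℚ n 2 le_rfl (frK ℚ 2 n)
    (fun i => frK_hom 2 n i) (frK_mor ℚ 2 Nat.prime_two n) η hη
  set δ : ℝ := 1 / (4 * C * (n * s + 1)) with hδ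
  have hδ0 : 0 < δ := by positivity
  refine ⟨C, δ, hC, hδ0, ?_⟩
  intro L _ _ S hS
  obtain ⟨hlim, hfin, hcard, -⟩ := hmain L
  have hd0 : (0 : ℝ) < finrank ℚ L := by
    have : 0 < finrank ℚ L := finrank_pos
    exact_mod_cast this
  set X : Set (Polynomial (𝓞 L)) := {f | ∃ A : Matrix (Fin n) (Fin n) (𝓞 L), f = A.charpoly ∧
        (∀ σ : L →+* ℂ, σ ∉ S → ∀ l : ℂ, ((emb σ).mapMatrix A).charpoly.IsRoot l → ‖l‖ ≤ 1) ∧
        (∀ σ ∈ S, ∀ l : ℂ, ((emb σ).mapMatrix A).charpoly.IsRoot l → ‖l‖ ≤ 1 + δ)} with hX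
  set Y : Set (ℙ L (Fin (n + 1) → L)) :=
    {P | canH (frK ℚ 2 n) 2 P.rep < 1 / (C * finrank ℚ L)} with hY
  -- the point of a polynomial
  let g : X → ℙ L (Fin (n + 1) → L) := fun f =>
    Projectivization.mk L (xv f.2.choose) (xv_ne f.2.choose)
  have hgY : ∀ f : X, g f ∈ Y := by
    intro f
    obtain ⟨hf, h1, h2⟩ := f.2.choose_spec
    set A := f.2.choose with hA
    have h3 := canH_le ℚ 2 n Nat.prime_two A S δ hδ0.le (hlim (xv A) (xv_ne A)) h1 h2
    obtain ⟨a, ha⟩ := Projectivization.exists_smul_eq_mk_rep L (xv A) (xv_ne A)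
    have h4 : canH (frK ℚ 2 n) 2 (g f).rep = canH (frK ℚ 2 n) 2 (xv A) := by
      have h5 : (g f).rep = (a : L) • xv A := ha.symm
      rw [h5, canH_smul (fun i => frK_hom 2 n i) a.ne_zero]
    change canH (frK ℚ 2 n) 2 (g f).rep < _
    rw [h4]
    refine lt_of_le_of_lt h3 ?_
    rw [div_lt_div_iff₀ hd0 (by positivity)]
    have h6 : 2 * (S.card : ℝ) * n * δ * C < 1 := by
      have h7 : (S.card : ℝ) ≤ s := by exact_mod_cast hS
      have h8 : 2 * (S.card : ℝ) * n * δ * C ≤ 2 * s * n * δ * C := by gcongr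
      have h9 : 2 * (s : ℝ) * n * δ * C = (n * s) / (2 * (n * s + 1)) := by
        rw [hδ]
        field_simp
        ring
      rw [h9] at h8
      refine lt_of_le_of_lt h8 ?_
      rw [div_lt_one (by positivity)]
      have : (0 : ℝ) ≤ n * s := by positivity
      linarith
    nlinarith
  have hinj : Function.Injective g := by
    intro f f' h
    have h1 : Projectivization.mk L (xv f.2.choose) (xv_ne f.2.choose) =
      Projectivization.mk L (xv f'.2.choose) (xv_ne f'.2.choose) := h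
    rw [Projectivization.mk_eq_mk_iff] at h1
    obtain ⟨a, ha⟩ := h1
    have h2 : xv f.2.choose = (a : L) • xv f'.2.choose := ha.symm
    have h3 := charpoly_eq h2
    apply Subtype.ext
    rw [f.2.choose_spec.1, f'.2.choose_spec.1, h3]
  have hYfin : Y.Finite := hfin
  have hXfin : X.Finite := by
    have : Finite Y := hYfin
    have : Finite X := Finite.of_injective (fun f : X => (⟨g f, hgY f⟩ : Y)) (fun a b h =>
      hinj (congrArg Subtype.val h))
    exact Set.toFinite X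
  refine ⟨hXfin, ?_⟩
  refine le_trans ?_ hcard
  have : Finite Y := hYfin
  have h1 : Nat.card X ≤ Nat.card Y :=
    Nat.card_le_card_of_injective (fun f : X => (⟨g f, hgY f⟩ : Y)) (fun a b h =>
      hinj (congrArg Subtype.val h))
  rw [Nat.card_coe_set_eq, Nat.card_coe_set_eq] at h1
  exact_mod_cast h1

end Pool.Agent.Q132.MG
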