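import Pool.Agent.Q132.MG.Descent

/-!
# The gap for eigenvalues, over fields of bounded degree over a field with a lower bound for heights
-/

set_option autoImplicit false
set_option linter.unusedSectionVars false

namespace Pool.Agent.Q132.MG

open NumberField Module Filter Topology
open Pool.Agent.W238.Leh (act act_smul)
open Pool.Agent.H225R3.Marg
open Pool.Agent.H627.LP (Wnd InsepN Conj)
open Pool.Agent.H420R3 (mi v_le_one v_lt_one_iff)
open Pool.Agent.TH285.MG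

/-- the lower bound for heights gives a gap for the eigenvalues -/
theorem gap_of' (K : Type) [Field K] [NumberField K] (p n s : ℕ) (hp : p.Prime) (C : ℝ)
    (hC : 0 < C) : ∃ ε : ℝ, 0 < ε ∧
    ∀ (L : Type) [Field L] [NumberField L] [Algebra K L] (A : Matrix (Fin n) (Fin n) (𝓞 L))
      (S : Finset (L →+* ℂ)),
      (∀ x : Fin (n + 1) → L, x ≠ 0 → Wnd (frK K p n) x →
        ∃ h : ℝ, Tendsto (fun j : ℕ => Height.logHeight ((act (frK K p n))^[j] x) /
            ((finrank ℚ L : ℝ) * ((p ^ 1 : ℕ) : ℝ) ^ j)) atTop (𝓝 h) ∧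
          1 / (C * finrank K L) ≤ h) →
      S.card ≤ s → IsUnit A →
      (∀ σ : L →+* ℂ, σ ∉ S → ∀ l : ℂ, ((emb σ).mapMatrix A).charpoly.IsRoot l → ‖l‖ ≤ 1) →
      (∀ N : ℕ, 0 < N → ¬ IsNilpotent (A ^ N - 1)) →
      ∃ σ ∈ S, ∃ l : ℂ, ((emb σ).mapMatrix A).charpoly.IsRoot l ∧ 1 + ε < ‖l‖ := by
  set ε : ℝ := 1 / (4 * C * (n * s + 1)) with hε
  have hε0 : 0 < ε := by positivity
  refine ⟨ε, hε0, ?_⟩
  intro L _ _ _ A S hlow hSs hA hout hN
  by_contra hcon
  push Not at hcon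
  have hR : (1 : ℝ) ≤ 1 + ε := by linarith
  have hin : ∀ σ ∈ S, ∀ l : ℂ, ((emb σ).mapMatrix A).charpoly.IsRoot l → ‖l‖ ≤ 1 + ε := by
    intro σ hσ l hl
    exact hcon σ hσ l hl
  obtain ⟨h, hlim, hlow'⟩ := hlow (xv A) (xv_ne A) (xv_wnd p hp.two_le A hA hN)
  set d : ℕ := finrank ℚ L with hd
  have hd0 : (0 : ℝ) < d := by
    have : 0 < finrank ℚ L := finrank_pos
    exact_mod_cast this
  have hp1 : (1 : ℝ) < p := by exact_mod_cast hp.one_lt
  have hlogR : Real.log (1 + ε) ≤ ε := by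
    have := Real.log_le_sub_one_of_pos (show 0 < 1 + ε by linarith)
    linarith
  have hlogR0 : 0 ≤ Real.log (1 + ε) := Real.log_nonneg hR
  have hub : ∀ j : ℕ, Height.logHeight ((act (frK K p n))^[j] (xv A)) /
      ((d : ℝ) * ((p ^ 1 : ℕ) : ℝ) ^ j) ≤
      n * Real.log 2 * ((p : ℝ)⁻¹) ^ j + 2 * s * n * ε / d := by
    intro j
    obtain ⟨u, hu, h1⟩ := act_iter_xv (K := K) p hp.pos A j
    rw [h1, Height.logHeight_smul_eq_logHeight _ hu]
    have hpj : 0 < p ^ j := Nat.pow_pos hp.pos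
    have h2 := mulHeight_xv_le A S (1 + ε) hR hout hin (p ^ j) hpj
    have hmh : 0 < Height.mulHeight (xv (A ^ p ^ j)) := Height.mulHeight_pos _
    have h3 : Height.logHeight (xv (A ^ p ^ j)) ≤
        d * (n * Real.log 2) + 2 * S.card * (n * p ^ j * Real.log (1 + ε)) := by
      rw [Height.logHeight]
      refine (Real.log_le_log hmh h2).trans ?_
      rw [Real.log_mul (by positivity) (by positivity), Real.log_pow, Real.log_pow, Real.log_pow,
        Real.log_pow]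
      push_cast
      rw [hd]
    have hpj' : (0 : ℝ) < (p : ℝ) ^ j := by positivity
    have h4 : (2 * S.card * (n * p ^ j * Real.log (1 + ε)) : ℝ) ≤
        2 * s * (n * p ^ j * ε) := by
      have hs' : (S.card : ℝ) ≤ s := by exact_mod_cast hSs
      gcongr
    rw [pow_one, div_le_iff₀ (by positivity)]
    have h5 : (n * Real.log 2 * ((p : ℝ)⁻¹) ^ j + 2 * s * n * ε / d) * (d * (p : ℝ) ^ j) =
        d * (n * Real.log 2) + 2 * s * (n * p ^ j * ε) := by
      rw [inv_pow]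
      field_simp
    rw [h5]
    linarith
  have hlim2 : Tendsto (fun j : ℕ => (n : ℝ) * Real.log 2 * ((p : ℝ)⁻¹) ^ j +
      2 * s * n * ε / d) atTop (𝓝 ((n : ℝ) * Real.log 2 * 0 + 2 * s * n * ε / d)) := by
    refine Tendsto.add_const _ (Tendsto.const_mul _ ?_)
    exact tendsto_pow_atTop_nhds_zero_of_lt_one (by positivity) (inv_lt_one_of_one_lt₀ hp1)
  have hle := le_of_tendsto_of_tendsto' hlim hlim2 hub
  rw [mul_zero, zero_add] at hle
  have hK : (finrank K L : ℝ) ≤ d := by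
    have h1 := finrank_mul_finrank ℚ K L
    have h2 : 0 < finrank ℚ K := finrank_pos
    have h3 : finrank K L ≤ finrank ℚ L := by
      rw [← h1]
      exact Nat.le_mul_of_pos_left _ h2
    exact_mod_cast h3
  have hK0 : (0 : ℝ) < finrank K L := by
    have : Module.Finite K L := Module.Finite.of_restrictScalars_finite ℚ K L
    have : 0 < finrank K L := finrank_pos
    exact_mod_cast this
  have h1 : 1 / (C * d) ≤ 2 * s * n * ε / d := by
    refine le_trans ?_ (hlow'.trans hle)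
    exact one_div_le_one_div_of_le (by positivity) (mul_le_mul_of_nonneg_left hK hC.le)
  rw [div_le_div_iff₀ (by positivity) hd0] at h1
  have h2 : 1 ≤ 2 * s * n * ε * C := by
    have h3 : 1 * (d : ℝ) ≤ 2 * s * n * ε * C * d := by linarith
    exact le_of_mul_le_mul_right h3 hd0
  rw [hε] at h2
  have h3 : 2 * (s : ℝ) * n * (1 / (4 * C * (n * s + 1))) * C = (n * s) / (2 * (n * s + 1)) := by
    field_simp
    ring
  rw [h3, le_div_iff₀ (by positivity)] at h2
  have h4 : (0 : ℝ) ≤ n * s := by positivity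
  linarith



/-- the lower bound for canonical heights over `k₁` -/
def HeightBound (K : Type) [Field K] [NumberField K] (p N : ℕ) (C : ℝ) (k₁ : Type) [Field k₁]
    [NumberField k₁] [Algebra K k₁] : Prop :=
  ∀ x : Fin (N + 1) → k₁, x ≠ 0 → Wnd (frK K p N) x →
    ∃ h : ℝ, Tendsto (fun j : ℕ => Height.logHeight ((act (frK K p N))^[j] x) /
        ((finrank ℚ k₁ : ℝ) * ((p ^ 1 : ℕ) : ℝ) ^ j)) atTop (𝓝 h) ∧
      1 / (C * finrank K k₁) ≤ h

/-- the gap over fields of bounded degree over `k₁` -/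
theorem gap_sub (K : Type) [Field K] [NumberField K] (p n s D : ℕ) (hp : p.Prime) (C : ℝ)
    (hC : 0 < C) : ∃ ε : ℝ, 0 < ε ∧
    ∀ (k₁ k : Type) [Field k₁] [NumberField k₁] [Algebra K k₁] [Field k] [NumberField k]
      [Algebra k₁ k] (A : Matrix (Fin n) (Fin n) (𝓞 k)) (S : Finset (k →+* ℂ)),
      HeightBound K p (n * D) C k₁ → finrank k₁ k ≤ D → S.card ≤ s → IsUnit A →
      (∀ σ : k →+* ℂ, σ ∉ S → ∀ l : ℂ, ((emb σ).mapMatrix A).charpoly.IsRoot l → ‖l‖ ≤ 1) →
      (∀ N : ℕ, 0 < N → ¬ IsNilpotent (A ^ N - 1)) →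
      ∃ σ ∈ S, ∃ l : ℂ, ((emb σ).mapMatrix A).charpoly.IsRoot l ∧ ε ≤ ‖l - 1‖ := by
  classical
  obtain ⟨ε, hε, h⟩ := gap_of' K p (n * D) s hp C hC
  refine ⟨ε, hε, ?_⟩
  intro k₁ k _ _ _ _ _ _ A S hlow hD hSs hA hout hN
  obtain ⟨Cm, hC1, hC2, hC3⟩ := exists_matrix (k₁ := k₁) hD A hA hN
  have hS1 : (S.image fun σ => σ.comp (algebraMap k₁ k)).card ≤ s :=
    Finset.card_image_le.trans hSs
  obtain ⟨σ₁, _, y, hy, hy1⟩ := h k₁ Cm (S.image fun σ => σ.comp (algebraMap k₁ k)) hlow hS1 hC1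
    (fun σ₁ hσ₁ l hl => by
      rcases hC2 σ₁ l hl with h1 | ⟨σ, h1, h2⟩
      · rw [h1, norm_one]
      · refine hout σ (fun hσ => hσ₁ ?_) l h2
        rw [← h1]
        exact Finset.mem_image_of_mem _ hσ) hC3
  rcases hC2 σ₁ y hy with h1 | ⟨σ, h1, h2⟩
  · rw [h1, norm_one] at hy1
    linarith
  · refine ⟨σ, ?_, y, h2, ?_⟩
    · by_contra hσ
      have := hout σ hσ y h2
      linarith
    · have h3 : ‖y‖ ≤ ‖y - 1‖ + ‖(1 : ℂ)‖ := by
        have := norm_add_le (y - 1) 1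
        rwa [sub_add_cancel] at this
      rw [norm_one] at h3
      linarith

end Pool.Agent.Q132.MG
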