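import Pool.Agent.Q132.MG.Gap

/-!
# Uniform discreteness over fields of bounded degree over fields with Frobenius automorphisms
-/

set_option autoImplicit false
set_option linter.unusedSectionVars false

namespace Pool.Agent.Q132.MG

open NumberField Module Filter Topology
open Pool.Agent.W238.Leh (act act_smul)
open Pool.Agent.H225R3.Marg
open Pool.Agent.H627.LP
open Pool.Agent.H420R3 (mi TP TP_nonempty mem_TP)
open Pool.Agent.TH285.MG
open scoped Pointwise

/-- the general principle -/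
theorem uniform_principle (K : Type) [Field K] [NumberField K] (p : ℕ) (hp : p.Prime) (D s n : ℕ)
    (Q : ∀ (k₁ : Type) [Field k₁] [NumberField k₁] [Algebra K k₁], Prop) (C : ℝ) (hC : 0 < C)
    (hQ : ∀ (k₁ : Type) [Field k₁] [NumberField k₁] [Algebra K k₁], Q k₁ →
      HeightBound K p (n * D) C k₁)
    {G : Type*} [Group G] [TopologicalSpace G] {M : ℕ}
    (ρ : G →* Matrix (Fin M) (Fin M) ℂ) (hρ : Continuous ρ) (F : Set (Subgroup G))
    (hF : ∀ Γ ∈ F, (∀ γ ∈ Γ, ∀ N : ℕ, 0 < N → γ ^ N = 1 → γ = 1) ∧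
      ∃ (k k₁ : Type) (_ : Field k) (_ : NumberField k) (_ : Field k₁) (_ : NumberField k₁)
        (_ : Algebra K k₁) (_ : Algebra k₁ k) (S : Finset (k →+* ℂ)) (_ : Realization ρ Γ k n S),
        S.card ≤ s ∧ finrank k₁ k ≤ D ∧ Q k₁) :
    UniformlyDiscrete F := by
  obtain ⟨ε, hε, hgap⟩ := gap_sub K p n s D hp C hC
  refine uniform_of ρ hρ F s n ⟨ε, hε, ?_⟩
  intro Γ hΓ
  obtain ⟨htf, k, k₁, _, _, _, _, _, _, S, R, hSs, hD, hk₁⟩ := hF Γ hΓ
  exact ⟨htf, k, inferInstance, inferInstance, S, R, hSs, fun A hS' hA hout hN =>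
    hgap k₁ k A S (hQ k₁ hk₁) hD hS' hA hout hN⟩

section few

variable {K L : Type} [Field K] [NumberField K] [Field L] [NumberField L] [Algebra K L]
  [IsGalois K L] {P : Ideal (𝓞 K)} [hP : P.IsMaximal]

/-- an automorphism with few conjugates which acts as Frobenius at one prime acts as Frobenius at a
positive proportion of the primes -/
theorem exists_few' (hP0 : P ≠ ⊥) {Q B : ℕ} {τ : Gal(L/K)}
    (hconj : (Set.range fun g : Gal(L/K) => g * τ * g⁻¹).ncard ≤ B) {v₀ : FinitePlace L}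
    (hv₀ : v₀ ∈ TP L P) (h3 : FrobAt v₀ τ Q) :
    ∃ (T : Finset (FinitePlace L)), T ⊆ TP L P ∧
      (∀ v ∈ T, FrobAt v τ Q) ∧
      finrank K L ≤ B * ∑ w ∈ T, (mi w).ramificationIdx (𝓞 K) * (mi w).inertiaDeg (𝓞 K) := by
  classical
  set T := (TP L P).filter fun w => FrobAt w τ Q with hT
  refine ⟨T, Finset.filter_subset _ _, fun v hv => (Finset.mem_filter.mp hv).2, ?_⟩
  set S := Nat.card (MulAction.stabilizer Gal(L/K) (mi v₀)) with hS
  have hef : ∀ w ∈ T, (mi w).ramificationIdx (𝓞 K) * (mi w).inertiaDeg (𝓞 K) = S := by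
    intro w hw
    have hwT := (Finset.mem_filter.mp hw).1
    have hlo := H420R3.liesOver_of_mem hP0 hwT
    have hlo₀ := H420R3.liesOver_of_mem hP0 hv₀
    rw [hS, Ideal.card_stabilizer_eq (G := Gal(L/K)) P (mi v₀),
      Ideal.ramificationIdxIn_eq_ramificationIdx P (mi w) Gal(L/K),
      Ideal.inertiaDegIn_eq_inertiaDeg P (mi w) Gal(L/K)]
  rw [Finset.sum_congr rfl hef, Finset.sum_const, smul_eq_mul]
  set Z := Subgroup.centralizer {τ} with hZ
  have hcard := card_le_conj τ hconj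
  have hG : Nat.card Gal(L/K) = finrank K L := IsGalois.card_aut_eq_finrank K L
  rw [hG] at hcard
  refine hcard.trans (Nat.mul_le_mul_left _ ?_)
  -- the orbit of the place under the centralizer
  have hex : ∀ g : Z, ∃ w ∈ T, mi w = (g : Gal(L/K)) • mi v₀ := by
    intro g
    obtain ⟨w, hw, hwg⟩ := exists_place_smul hP0 hv₀ (g : Gal(L/K))
    refine ⟨w, ?_, hwg⟩
    rw [hT, Finset.mem_filter]
    refine ⟨hw, h3.conj hwg.symm ?_⟩
    have := Subgroup.mem_centralizer_singleton_iff.mp g.2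
    exact this.symm
  choose w hwT hwg using hex
  let := Fintype.ofFinite Z
  have h4 : (Finset.univ : Finset Z).card ≤ S * (Finset.univ.image w).card := by
    refine Finset.card_le_mul_card_image _ _ fun b hb => ?_
    obtain ⟨g₀, _, rfl⟩ := Finset.mem_image.mp hb
    rw [← Fintype.card_coe, ← Nat.card_eq_fintype_card]
    refine Nat.card_le_card_of_injective
      (fun g : (Finset.univ.filter fun g => w g = w g₀) =>
        (⟨((g₀ : Z) : Gal(L/K))⁻¹ * ((g : Z) : Gal(L/K)), ?_⟩ :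
          MulAction.stabilizer Gal(L/K) (mi v₀))) ?_
    · have h5 : w g = w g₀ := (Finset.mem_filter.mp g.2).2
      rw [MulAction.mem_stabilizer_iff, mul_smul, ← hwg, h5, hwg, inv_smul_smul]
    · intro a b hab
      apply Subtype.ext
      apply Subtype.ext
      have := congrArg Subtype.val hab
      exact mul_left_cancel this
  have h5 : (Finset.univ.image w).card ≤ T.card := by
    apply Finset.card_le_card
    intro x hx
    obtain ⟨g, _, rfl⟩ := Finset.mem_image.mp hx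
    exact hwT g
  rw [Nat.card_eq_fintype_card, ← Finset.card_univ]
  calc _ ≤ _ := h4
    _ ≤ S * T.card := Nat.mul_le_mul_left _ h5
    _ = _ := mul_comm _ _

end few

/-- the height bound from an automorphism which is a Frobenius at many primes -/
theorem heightBound_frob (K : Type) [Field K] [NumberField K] (p : ℕ) (hp : p.Prime)
    (P : Ideal (𝓞 K)) (hP : P.IsPrime) (hpP : (p : 𝓞 K) ∈ P) (m B N : ℕ) (hm : 1 ≤ m) :
    ∃ C : ℝ, 0 < C ∧ ∀ (k₁ : Type) [Field k₁] [NumberField k₁] [Algebra K k₁],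
      ((∃ (τ : Gal(k₁/K)) (T : Finset (Ideal (𝓞 k₁))),
        (∀ 𝔓 ∈ T, 𝔓.IsPrime ∧ 𝔓.under (𝓞 K) = P ∧ ∀ a : 𝓞 k₁, τ • a - a ^ (P.absNorm ^ m) ∈ 𝔓) ∧
        finrank K k₁ ≤ B * ∑ 𝔓 ∈ T, 𝔓.ramificationIdx (𝓞 K) * 𝔓.inertiaDeg (𝓞 K)) ∨
      (IsGalois K k₁ ∧ ∃ (𝔓 : Ideal (𝓞 k₁)) (τ : Gal(k₁/K)), 𝔓.IsPrime ∧
        𝔓.under (𝓞 K) = P ∧ (∀ a : 𝓞 k₁, τ • a - a ^ (P.absNorm ^ m) ∈ 𝔓) ∧
        (Set.range fun g : Gal(k₁/K) => g * τ * g⁻¹).ncard ≤ B)) →
      HeightBound K p N C k₁ := by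
  obtain ⟨v, hvP, hv⟩ := place_of_ideal K p hp P hP hpP
  obtain ⟨C₁, hC₁, -, hfrob, -⟩ := Pool.Agent.H627.LP.final (N := N) (k := K) (K := K) hp
    (r := 1) le_rfl (frK K p N) 1 (by simp) (frK K p N) (fun i => by
      rw [pow_one]
      exact frK_hom p N i) (conj_one K p N) v hv (frK_insep v p hp hv N) hm B
  obtain ⟨C₂, hC₂, hmain⟩ := Pool.Agent.H627.LP.main (N := N) (k := K) (K := K) hp
    (r := 1) le_rfl (frK K p N) 1 (by simp) (frK K p N) (fun i => by
      rw [pow_one]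
      exact frK_hom p N i) (conj_one K p N) v hv (frK_insep v p hp hv N) hm B
  refine ⟨max C₁ C₂, lt_max_of_lt_left hC₁, ?_⟩
  intro k₁ _ _ _ hk₁ x hx hw
  have hfr : (0 : ℝ) < finrank K k₁ := by
    have : Module.Finite K k₁ := Module.Finite.of_restrictScalars_finite ℚ K k₁
    have : 0 < finrank K k₁ := finrank_pos
    exact_mod_cast this
  rcases hk₁ with ⟨τ, T, hT, hB⟩ | ⟨hG, 𝔓, τ, h1, h2, h3, h4⟩
  · obtain ⟨h, hlim, hlow, -⟩ := hfrob k₁ τ T (by rw [hvP]; exact hT) hB x hx hw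
    refine ⟨h, hlim, le_trans ?_ hlow⟩
    exact one_div_le_one_div_of_le (by positivity)
      (mul_le_mul_of_nonneg_right (le_max_left _ _) hfr.le)
  · obtain ⟨h, hlim, hlow⟩ := hmain k₁ k₁ x hx hw
    refine ⟨h, hlim, ?_⟩
    have hP0 : P ≠ ⊥ := by
      rintro rfl
      rw [Ideal.mem_bot] at hpP
      exact hp.ne_zero (by exact_mod_cast hpP)
    have hPmax : P.IsMaximal := hP.isMaximal hP0
    have hPN : P.absNorm ≠ 0 := fun h0 => hP0 (Ideal.absNorm_eq_zero_iff.mp h0)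
    have hlo : 𝔓.LiesOver P := ⟨h2.symm⟩
    have h0 : 𝔓 ≠ ⊥ := Ideal.ne_bot_of_liesOver_of_ne_bot hP0 𝔓
    let I : IsDedekindDomain.HeightOneSpectrum (𝓞 k₁) := ⟨𝔓, h1, h0⟩
    have hI : mi (FinitePlace.mk I) = 𝔓 := by
      unfold mi
      rw [FinitePlace.maximalIdeal_mk]
    have hmem : FinitePlace.mk I ∈ TP k₁ P := by
      rw [mem_TP hP0, hI]
      exact ⟨h1, hlo⟩
    have hfrobAt : FrobAt (FinitePlace.mk I) τ (P.absNorm ^ m) := by
      refine ⟨?_, ?_⟩
      · rw [hI]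
        exact smul_eq_of_congr (pow_ne_zero _ hPN) h1 h0 h3
      · rw [hI]; exact h3
    obtain ⟨T, hT1, hT2, hT3⟩ := exists_few' hP0 h4 hmem hfrobAt
    have hvP' : mi v = P := hvP
    have h5 := (hlow τ T (by rw [hvP']; exact hT1) (by rw [hvP']; exact hT2) hT3).1
    refine le_trans ?_ h5
    exact one_div_le_one_div_of_le (by positivity)
      (mul_le_mul_of_nonneg_right (le_max_right _ _) hfr.le)

end Pool.Agent.Q132.MG
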